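import Pool.Agent.X185.FIB.Core

/-!
# Finitely generated fiber products of free semigroups are finitely presented
-/

set_option autoImplicit false

namespace Pool.Agent.Results.MP_c47b4a_al.FiberProducts

open Pool.Agent.X185.FIB

/-- The fiber product `{(u, v) ∈ A⁺ × B⁺ : f u = g v}`. -/
def fiberProduct {A B Q : Type*} [Semigroup Q] (f : FreeSemigroup A →ₙ* Q)
    (g : FreeSemigroup B →ₙ* Q) : Subsemigroup (FreeSemigroup A × FreeSemigroup B) where
  carrier := {p | f p.1 = g p.2}
  mul_mem' := by
    intro p q hp hq
    change f (p.1 * q.1) = g (p.2 * q.2)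
    change f p.1 = g p.2 at hp
    change f q.1 = g q.2 at hq
    rw [map_mul, map_mul, hp, hq]

/-- The semigroup `S` is generated by a finite subset. -/
def FinitelyGenerated (S : Type*) [Semigroup S] : Prop :=
  ∃ X : Set S, X.Finite ∧ Subsemigroup.closure X = ⊤

/-- `S` is isomorphic to `X⁺ / ρ` for a finite alphabet `X` and a congruence `ρ` generated by
finitely many pairs of words. -/
def FinitelyPresented (S : Type*) [Semigroup S] : Prop :=
  ∃ (n : ℕ) (R : Set (FreeSemigroup (Fin n) × FreeSemigroup (Fin n))), R.Finite ∧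
    Nonempty (S ≃* (conGen (fun u v => (u, v) ∈ R)).Quotient)

/-- the word as a list -/
def toL {A : Type*} (w : FreeSemigroup A) : List A := w.head :: w.tail

lemma toL_mul {A : Type*} (v w : FreeSemigroup A) : toL (v * w) = toL v ++ toL w := rfl

lemma toL_inj {A : Type*} {v w : FreeSemigroup A} (h : toL v = toL w) : v = w := by
  unfold toL at h
  rw [List.cons.injEq] at h
  exact FreeSemigroup.ext h.1 h.2

lemma toL_ne {A : Type*} (v : FreeSemigroup A) : toL v ≠ [] := List.cons_ne_nil _ _

lemma exists_toL {A : Type*} {l : List A} (h : l ≠ []) : ∃ w : FreeSemigroup A, toL w = l := by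
  rcases l with _ | ⟨a, l⟩
  · exact absurd rfl h
  · exact ⟨⟨a, l⟩, rfl⟩

section
variable {A Q : Type*} [Semigroup Q] (f : FreeSemigroup A →ₙ* Q)

/-- the extension to the free monoid -/
def ext (l : List A) : WithOne Q := (l.map (fun a => ((f (FreeSemigroup.of a) : Q) : WithOne Q))).prod

lemma ext_app (u v : List A) : ext f (u ++ v) = ext f u * ext f v := by
  unfold ext
  rw [List.map_append, List.prod_append]

lemma ext_nil : ext f [] = 1 := rfl

lemma ext_toL (w : FreeSemigroup A) : ext f (toL w) = ((f w : Q) : WithOne Q) := by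
  obtain ⟨h, t⟩ := w
  induction t generalizing h with
  | nil =>
    change ext f [h] = _
    unfold ext
    simp only [List.map_cons, List.map_nil, List.prod_cons, List.prod_nil, mul_one]
    rfl
  | cons a t ih =>
    have h1 : (⟨h, a :: t⟩ : FreeSemigroup A) = FreeSemigroup.of h * ⟨a, t⟩ := rfl
    rw [h1, toL_mul, ext_app, ih, map_mul, WithOne.coe_mul]
    congr 1

lemma ext_eq_one {u : List A} (h : ext f u = 1) : u = [] := by
  by_contra hu
  obtain ⟨w, rfl⟩ := exists_toL hu
  rw [ext_toL] at h
  exact WithOne.coe_ne_one h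

end

section
variable {A B Q : Type*} [Semigroup Q] (f : FreeSemigroup A →ₙ* Q) (g : FreeSemigroup B →ₙ* Q)

lemma exists_lift (hf : Function.Surjective f) : ∃ θ : List B → List A,
    (∀ v w, θ (v ++ w) = θ v ++ θ w) ∧ ∀ v, ext f (θ v) = ext g v := by
  choose s hs using fun b : B => hf (g (FreeSemigroup.of b))
  refine ⟨fun v => v.flatMap (fun b => toL (s b)), fun v w => by simp, fun v => ?_⟩
  induction v with
  | nil => rfl
  | cons b v ih =>
    change ext f ((b :: v).flatMap (fun b => toL (s b))) = ext g ([b] ++ v)
    rw [List.flatMap_cons, ext_app, ext_app, ih, ext_toL, hs]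
    congr 1

variable {f g}
variable {n : ℕ} (x : Fin n → fiberProduct f g)

/-- the homomorphism of the free semigroup given by the generators -/
def pres : FreeSemigroup (Fin n) →ₙ* fiberProduct f g := FreeSemigroup.lift x

lemma pres_of (i : Fin n) : pres x (FreeSemigroup.of i) = x i := rfl

lemma pres_toL (w : FreeSemigroup (Fin n)) :
    (toL w).flatMap (fun i => toL (x i).1.1) = toL (pres x w).1.1 ∧
    (toL w).flatMap (fun i => toL (x i).1.2) = toL (pres x w).1.2 := by
  obtain ⟨h, t⟩ := w
  induction t generalizing h with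
  | nil =>
    constructor
    · change [h].flatMap _ = _
      rw [List.flatMap_singleton]
      rfl
    · change [h].flatMap _ = _
      rw [List.flatMap_singleton]
      rfl
  | cons a t ih =>
    have h1 : (⟨h, a :: t⟩ : FreeSemigroup (Fin n)) = FreeSemigroup.of h * ⟨a, t⟩ := rfl
    rw [h1, map_mul, pres_of]
    constructor
    · change (h :: toL ⟨a, t⟩).flatMap _ = toL ((x h).1.1 * (pres x ⟨a, t⟩).1.1)
      rw [List.flatMap_cons, (ih a).1, toL_mul]
    · change (h :: toL ⟨a, t⟩).flatMap _ = toL ((x h).1.2 * (pres x ⟨a, t⟩).1.2)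
      rw [List.flatMap_cons, (ih a).2, toL_mul]

lemma pres_surj (hx : Subsemigroup.closure (Set.range x) = ⊤) :
    Function.Surjective (pres x) := by
  intro s
  have h1 : Subsemigroup.closure (Set.range x) ≤ (pres x).srange := by
    rw [Subsemigroup.closure_le]
    rintro _ ⟨i, rfl⟩
    exact ⟨FreeSemigroup.of i, pres_of x i⟩
  rw [hx] at h1
  exact h1 (Subsemigroup.mem_top s)

lemma exists_setup (hf : Function.Surjective f) (hg : Function.Surjective g)
    (hx : Subsemigroup.closure (Set.range x) = ⊤) :
    ∃ D : Setup A B (WithOne Q) (Fin n), ∀ i, D.e i = (toL (x i).1.1, toL (x i).1.2) := by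
  obtain ⟨θ, hθ1, hθ2⟩ := exists_lift f g hf
  obtain ⟨φ, hφ1, hφ2⟩ := exists_lift g f hg
  refine ⟨{ F := ext f, G := ext g, F_app := ext_app f, G_app := ext_app g
            G_one := fun v h => ext_eq_one g h, F_nil := ext_nil f, G_nil := ext_nil g
            F_one := fun u h => ext_eq_one f h
            θ := θ, φ := φ, θ_app := hθ1, θ_spec := hθ2, φ_spec := hφ2
            e := fun i => (toL (x i).1.1, toL (x i).1.2)
            e_ne1 := fun i => toL_ne _
            e_ne2 := fun i => toL_ne _
            e_mem := fun i => ?_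
            N := ∑ i, ((toL (x i).1.1).length + (toL (x i).1.2).length)
            e_le1 := fun i => ?_
            e_le2 := fun i => ?_
            gen := fun u v h => ?_ }, fun i => rfl⟩
  · change ext f (toL (x i).1.1) = ext g (toL (x i).1.2)
    rw [ext_toL, ext_toL]
    exact congrArg _ (x i).2
  · have h1 := Finset.single_le_sum
      (f := fun i => (toL (x i).1.1).length + (toL (x i).1.2).length)
      (fun i _ => Nat.zero_le _) (Finset.mem_univ i)
    exact le_trans (Nat.le_add_right _ _) h1
  · have h1 := Finset.single_le_sum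
      (f := fun i => (toL (x i).1.1).length + (toL (x i).1.2).length)
      (fun i _ => Nat.zero_le _) (Finset.mem_univ i)
    exact le_trans (Nat.le_add_left _ _) h1
  · by_cases hu : u = []
    · subst hu
      rw [ext_nil] at h
      have hv := ext_eq_one g h.symm
      subst hv
      exact ⟨[], rfl, rfl⟩
    · have hv : v ≠ [] := by
        rintro rfl
        rw [ext_nil] at h
        exact hu (ext_eq_one f h)
      obtain ⟨a, rfl⟩ := exists_toL hu
      obtain ⟨b, rfl⟩ := exists_toL hv
      rw [ext_toL, ext_toL, WithOne.coe_inj] at h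
      obtain ⟨w, hw⟩ := pres_surj x hx ⟨(a, b), h⟩
      have h2 := pres_toL x w
      rw [hw] at h2
      exact ⟨toL w, h2.1, h2.2⟩

end

/-- the finite set of the relations -/
def rels {A B Q : Type*} [Semigroup Q] {n : ℕ} (D : Setup A B (WithOne Q) (Fin n)) :
    Set (FreeSemigroup (Fin n) × FreeSemigroup (Fin n)) :=
  {p | D.R (toL p.1) (toL p.2)}

section
variable {A B Q : Type*} [Semigroup Q] {n : ℕ} (D : Setup A B (WithOne Q) (Fin n))

lemma rels_finite : (rels D).Finite := by
  set C := 2 * D.N * D.N + 4 * D.N with hC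
  have h1 : {l : List (Fin n) | l.length ≤ C}.Finite := List.finite_length_le (Fin n) C
  have h2 : {w : FreeSemigroup (Fin n) | (toL w).length ≤ C}.Finite :=
    Set.Finite.preimage (f := toL) (fun a _ b _ h => toL_inj h) h1
  refine (h2.prod h2).subset ?_
  rintro ⟨w, w'⟩ ⟨hU, hV, hl⟩
  change D.U (toL w) = D.U (toL w') at hU
  change (D.U (toL w)).length + (D.V (toL w)).length ≤ _ at hl
  have h3 := D.len_le_U (toL w)
  have h4 := D.len_le_U (toL w')
  rw [← hU] at h4
  exact ⟨by change (toL w).length ≤ C; omega, by change (toL w').length ≤ C; omega⟩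

lemma transfer {L L' : List (Fin n)} (h : D.Eqv L L') :
    (L = [] ↔ L' = []) ∧ ∀ w w' : FreeSemigroup (Fin n), toL w = L → toL w' = L' →
      conGen (fun u v => (u, v) ∈ rels D) w w' := by
  induction h with
  | @rel a b h =>
    refine ⟨?_, ?_⟩
    · constructor
      · rintro rfl
        have := D.len_le_U b
        rw [← h.1] at this
        exact List.length_eq_zero_iff.1 (by simpa using this)
      · rintro rfl
        have := D.len_le_U a
        rw [h.1] at this
        exact List.length_eq_zero_iff.1 (by simpa using this)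
    · rintro w w' rfl rfl
      exact ConGen.Rel.of _ _ h
  | refl a =>
    refine ⟨Iff.rfl, ?_⟩
    rintro w w' h1 h2
    have : w = w' := toL_inj (h1.trans h2.symm)
    rw [this]
    exact (conGen _).refl _
  | symm _ ih => exact ⟨ih.1.symm, fun w w' h1 h2 => (conGen _).symm (ih.2 w' w h2 h1)⟩
  | @trans a b c _ _ ih1 ih2 =>
    refine ⟨ih1.1.trans ih2.1, fun w w' h1 h2 => ?_⟩
    have hb : b ≠ [] := fun h => toL_ne w (h1.trans (ih1.1.2 h))
    obtain ⟨w1, hw1⟩ := exists_toL hb
    exact (conGen _).trans (ih1.2 w w1 h1 hw1) (ih2.2 w1 w' hw1 h2)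
  | @app a b c d _ _ ih1 ih2 =>
    refine ⟨by rw [List.append_eq_nil_iff, List.append_eq_nil_iff, ih1.1, ih2.1],
      fun w w' h1 h2 => ?_⟩
    by_cases ha : a = []
    · have hb := ih1.1.1 ha
      subst ha hb
      exact ih2.2 w w' h1 h2
    by_cases hc : c = []
    · have hd := ih2.1.1 hc
      subst hc hd
      rw [List.append_nil] at h1 h2
      exact ih1.2 w w' h1 h2
    have hb : b ≠ [] := fun h => ha (ih1.1.2 h)
    have hd : d ≠ [] := fun h => hc (ih2.1.2 h)
    obtain ⟨wa, rfl⟩ := exists_toL ha
    obtain ⟨wb, rfl⟩ := exists_toL hb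
    obtain ⟨wc, rfl⟩ := exists_toL hc
    obtain ⟨wd, rfl⟩ := exists_toL hd
    have h3 : w = wa * wc := toL_inj (by rw [h1, toL_mul])
    have h4 : w' = wb * wd := toL_inj (by rw [h2, toL_mul])
    rw [h3, h4]
    exact (conGen _).mul (ih1.2 wa wb rfl rfl) (ih2.2 wc wd rfl rfl)

end

/-- **Every finitely generated fiber product of two free semigroups of finite rank is finitely
presented.** -/
theorem result {A B Q : Type*} [Finite A] [Nonempty A] [Finite B] [Nonempty B] [Semigroup Q]
    (f : FreeSemigroup A →ₙ* Q) (g : FreeSemigroup B →ₙ* Q)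
    (hf : Function.Surjective f) (hg : Function.Surjective g)
    (hfg : FinitelyGenerated (fiberProduct f g)) : FinitelyPresented (fiberProduct f g) := by
  obtain ⟨X, hX, hX2⟩ := hfg
  obtain ⟨n, x, hx⟩ := hX.fin_param
  have hx2 : Subsemigroup.closure (Set.range x) = ⊤ := by
    have : Set.range x = X := hx.2
    rw [this, hX2]
  obtain ⟨D, hD⟩ := exists_setup x hf hg hx2
  have hU : ∀ w, D.U (toL w) = toL (pres x w).1.1 := by
    intro w
    have := (pres_toL x w).1
    unfold Setup.U
    simp only [hD]
    exact this
  have hV : ∀ w, D.V (toL w) = toL (pres x w).1.2 := by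
    intro w
    have := (pres_toL x w).2
    unfold Setup.V
    simp only [hD]
    exact this
  refine ⟨n, rels D, rels_finite D, ⟨?_⟩⟩
  set c := conGen (fun u v => (u, v) ∈ rels D) with hc
  have hker : ∀ w w', c w w' ↔ pres x w = pres x w' := by
    intro w w'
    constructor
    · intro h
      have h1 : c ≤ Con.ker (pres x) := by
        rw [hc, Con.conGen_le]
        rintro u v ⟨h2, h3, _⟩
        change pres x u = pres x v
        rw [hU, hU] at h2
        rw [hV, hV] at h3
        exact Subtype.ext (Prod.ext (toL_inj h2) (toL_inj h3))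
      exact h1 h
    · intro h
      exact (transfer D (D.main _ (toL w) (toL w') le_rfl (by rw [hU, hU, h])
        (by rw [hV, hV, h]))).2 w w' rfl rfl
  let F : c.Quotient →ₙ* fiberProduct f g :=
    { toFun := Quotient.lift (pres x) (fun a b h => (hker a b).1 h)
      map_mul' := by
        intro a b
        induction a using Con.induction_on with
        | H a => 
          induction b using Con.induction_on with
          | H b => exact map_mul (pres x) a b }
  refine (MulEquiv.ofBijective F ⟨?_, ?_⟩).symm
  · intro a b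
    induction a using Con.induction_on with
    | H a => 
      induction b using Con.induction_on with
      | H b =>
        intro h
        exact (Con.eq c).2 ((hker a b).2 h)
  · intro s
    obtain ⟨w, hw⟩ := pres_surj x hx2 s
    exact ⟨(w : c.Quotient), hw⟩

end Pool.Agent.Results.MP_c47b4a_al.FiberProducts
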